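import Pool.Agent.Z45.MN.Main

/-!
# Partial MCSP: almost every set of `N ^ h` of the `N = 2 ^ n` negated inputs is indispensable

A partial truth table `T : PTable n` is a function from `Fin n → Bool` to `Option Bool`; it is given
to a circuit by the Boolean inputs `(x, b)`, where `(x, b)` says that `T x = b` (`enc`). The
circuits here consist of conjunctions and disjunctions of available functions; available are the
constants, the inputs `(x, b)`, the functions computed before, and the negations of the inputs
`(x, b)` with `x` outside of a given set `Z` of entries (`NAv`, `NProg`). For `Z = ∅` these are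
arbitrary circuits, as negations can be moved to the inputs (at the cost of doubling the size); if `Z`
contains all the entries then they are the monotone circuits, which were treated in `MonotoneCircuits`.

`Hard n δ Z` says that without the negated inputs at the entries in `Z` even the gap version of
Partial MCSP needs large circuits: for all `w ≥ 1`, `9 n ^ 4 w ^ 2 ≤ s ≤ s' ≤ 2 ^ (δ n)`, every such
circuit which rejects all partial tables which are consistent with some circuit of size at most `s` and
accepts all partial tables which are not consistent with any circuit of size at most `s'` has at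
least `2 ^ w` gates. Thus the size is exponential in `√s / (3 n ^ 2)`.

Theorem. Let `0 ≤ θ` and `0 < δ < (1 - θ) / 3`. There is `η > 0` such that for all large `n` and all
`D ≤ 2 ^ (θ n)`: if `Z` is a random set of entries, which contains each entry with probability `1 / D`
independently, then `Hard n δ Z` is true with probability at least `1 - exp (- 2 ^ (η n))`. So there are
about `N / D ≥ N ^ (1 - θ)` entries in `Z`, which is `N ^ h` with `h > 0` arbitrarily small: circuits of
size `2 ^ (N ^ o(1))` have to use the negated inputs at almost every set of `N ^ h` entries.

Proof. Write `n = n₁ + t` with `t` slightly larger than `θ n`. With high probability every fibre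
`{(x, u) : u ∈ {0, 1} ^ t}`, `x ∈ {0, 1} ^ n₁`, contains an entry `(x, g x)` in `Z`. A table `T₁` of
arity `n₁` is written at these entries, all others are undefined. On such tables the circuit is a
monotone circuit in the inputs for `T₁`. If `T₁` is consistent with a small circuit then so is the
table of arity `n`. The converse is false in general, as `g x` may help to compute `T₁ x`; but for a
random `T₁` with `2 ^ (n₁ / 3)` defined entries no circuit of size at most `s'` with the inputs
`(x, g x)` is consistent. So the method of approximations for monotone circuits with these random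
tables (from the proof of `MonotoneCircuits`) applies.
-/

set_option autoImplicit false

namespace Pool.Agent.Results.MP_d2e5f8_lc.MissingNegations

open Pool.Agent.Helper80K3 Pool.Agent.Z45.MN

/-- For all but a fraction `exp (- 2 ^ (η n))` of the random sets `Z` of entries of density `1 / D` gap
Partial MCSP needs exponential size for circuits without the negated inputs at the entries in `Z`. -/
theorem result (θ δ : ℝ) (hθ : 0 ≤ θ) (hδ : 0 < δ) (hθδ : δ < (1 - θ) / 3) :
    ∃ η : ℝ, 0 < η ∧ ∃ n₀ : ℕ, ∀ n : ℕ, n₀ ≤ n → ∀ D : ℕ, 1 ≤ D → (D : ℝ) ≤ (2 : ℝ) ^ (θ * n) →
      (Nat.card {f : (Fin n → Bool) → Fin D // ¬ Hard n δ (zeros f)} : ℝ) ≤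
        Real.exp (-(2 : ℝ) ^ (η * n)) * Nat.card ((Fin n → Bool) → Fin D) := by
  obtain ⟨η, hη, n₀, h⟩ := main θ δ hθ hδ hθδ
  refine ⟨η, hη, n₀, fun n hn D hD hDθ => ?_⟩
  have h1 := h n hn D hD hDθ
  have h2 : Nat.card ((Fin n → Bool) → Fin D) = D ^ 2 ^ n := by
    rw [Nat.card_eq_fintype_card, Fintype.card_fun, Fintype.card_fun, Fintype.card_bool,
      Fintype.card_fin, Fintype.card_fin]
  have h3 : Nat.card {f : (Fin n → Bool) → Fin D // ¬ Hard n δ (zeros f)} =
      {f : (Fin n → Bool) → Fin D | ¬ Hard n δ (zeros f)}.ncard :=
    Nat.card_coe_set_eq {f : (Fin n → Bool) → Fin D | ¬ Hard n δ (zeros f)}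
  rw [h2, h3]
  push_cast
  exact h1

end Pool.Agent.Results.MP_d2e5f8_lc.MissingNegations
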