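import Pool.Agent.Helper80K3.Main

/-!
# Partial MCSP has no small monotone circuits, not even with a large gap

A partial truth table `T : PTable n` is a function from `Fin n → Bool` to `Option Bool`. It is given
to a monotone circuit by the `2 * 2 ^ n` Boolean variables `(x, b)`, where `(x, b)` says that
`T x = b` (`enc`). When more entries are defined, it is harder to be consistent with `T`, hence
`no circuit of size at most s is consistent with T` is a monotone property of these variables, and
this is the negation of Partial MCSP with the parameters `n` and `s`.

`MProg L` says that `L` is a monotone circuit over these variables: a list of Boolean functions,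
each of which is the conjunction or the disjunction of two available functions; `MAv L` are the
available functions, i.e. the constants, the variables and the earlier functions. `L.length` is the
number of gates. `Circ L` is the same for circuits on `n` inputs with conjunctions, disjunctions and
free negations and without constants, and `HasSize g s` says that such a circuit with at most `s`
gates computes `g`. `defd T` is the number of defined entries of `T`.

Theorem. Let `1 ≤ n`, `1 ≤ w`, `9 n ^ 4 w ^ 2 ≤ s ≤ s'` and `n ^ 2 s' ≤ 2 ^ (n / 3)`. Every
monotone circuit which rejects all total tables of functions of circuit size at most `s` and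
accepts all partial tables with exactly `2 ^ (n / 3)` defined entries which are not consistent with
any circuit of size at most `s'` has at least `2 ^ w` gates. In particular this is true for the
monotone circuits which accept exactly the partial tables `T` without a consistent circuit of size
at most `s`. The size is thus at least `2 ^ w` with `w` about `√s / (3 n ^ 2)`.

Idea of the proof: Razborov's method of approximations with limited independence. The rejected
tables are the functions `x ↦ (first bit of y(x))` for polynomials `y` of degree less than `k` over
the field with `2 ^ n` elements, where `k` is about `2 n w ^ 2`; they are `k`-wise independent and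
have circuits with `1 + 4 k n ^ 3` gates. The accepted tables are random. A gate is approximated by
a family of partial functions with at most `w` points, closed under a partial function `Y` being
added when almost all the extensions `y` of `Y` extend a member. A moment bound for spread families
shows that a closed family has at most `(1024 m w) ^ j` minimal members of size `j`, with
`m = 2 (n + 3) w`.
-/

namespace Pool.Agent.Results.MP_d2e5f8_lc.MonotoneCircuits

open Pool.Agent.Helper80K3

theorem result (n w s s' : ℕ) (hn : 1 ≤ n) (hw : 1 ≤ w) (hs : 9 * n ^ 4 * w ^ 2 ≤ s)
    (hss : s ≤ s') (hs' : n ^ 2 * s' ≤ 2 ^ (n / 3))
    (L : List (((Fin n → Bool) × Bool → Bool) → Bool)) (hL : MProg L)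
    (φ : ((Fin n → Bool) × Bool → Bool) → Bool) (hφ : MAv L φ) :
    ((∀ g : (Fin n → Bool) → Bool, HasSize g s → φ (enc (fun x => some (g x))) = false) →
      (∀ T : PTable n, defd T = 2 ^ (n / 3) → (∀ g, HasSize g s' → ¬ Consistent T g) →
        φ (enc T) = true) →
      2 ^ w ≤ L.length) ∧
    ((∀ T : PTable n, φ (enc T) = true ↔ ∀ g, HasSize g s → ¬ Consistent T g) →
      2 ^ w ≤ L.length) := by
  refine ⟨fun h1 h2 => main hn hw hs hss hs' hL hφ h1 h2, fun h => ?_⟩
  apply main hn hw hs hss hs' hL hφ
  · intro g hg
    rw [← Bool.not_eq_true, h]
    intro hno
    exact hno g hg (fun x b hxb => Option.some.inj hxb)
  · intro T _ hT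
    rw [h]
    exact fun g hg => hT g (hg.mono hss)

end Pool.Agent.Results.MP_d2e5f8_lc.MonotoneCircuits
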