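import Pool.Agent.Helper41.PM.Upper

/-!
# Partial MCSP and nondeterministic read-once branching programs

The input of Partial MCSP, for a fixed arity `n` and a fixed size `s`, is a partial truth table: the `N = 2 ^ n`
variables `T x`, `x ∈ {0, 1} ^ n`, with values in `{0, 1, *}`.  A nondeterministic branching program is a graph
with a start and an accepting node whose edges are free or are labelled by a test `T x = a`; it accepts `T` if there
is a walk from the start to the accepting node all of whose tests are passed.  It is read-once if no walk from
the start to the accepting node tests a variable twice; the order of the tests may be different on different walks.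
The size is the number of nodes.

Theorem: such a program has at least `2 ^ (s / (1100 n ^ 7))` nodes if it decides whether there is a consistent circuit
of size at most `s` (for `s ≤ 2 ^ n / (32 n)`), and `2 ^ ((2 n + 3) (s + 1) + n + 2)` nodes suffice.  So the exponent is
known up to a factor that is polynomial in `n = log N`.  The lower bound `2 ^ (s ^ 2 / (1100 n ^ 7 s'))` holds even
when the program must only accept the total truth tables of circuit size at most `s` and reject the total truth
tables of circuit size greater than `s'`.

Idea: polynomials of degree less than `k` over the field with `2 ^ n` elements give functions with circuits of size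
`1 + 4 k n ^ 3` that are `k`-wise independent.  Cut the accepting walks of all these functions into `t` segments with at
least `k` tests each.  Many functions share the same cut nodes; the segments test disjoint sets of variables, so
all mixtures of these functions are accepted.  But there are too many mixtures for all of them to have circuits
of size `s'`.
-/

set_option autoImplicit false

namespace Pool.Agent.Results.MP_d2e5f8_lc.ReadOnceBranchingPrograms

open Pool.Agent.Helper80K3 Pool.Agent.Helper41.PM

/-- A partial truth table of arity `n`; `none` is an undefined entry. -/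
abbrev PTable (n : ℕ) := (Fin n → Bool) → Option Bool

/-- The truth table of a function. -/
def total {n : ℕ} (g : (Fin n → Bool) → Bool) : PTable n := fun x => some (g x)

/-- The function `g` agrees with all defined entries of `T`. -/
def Consistent {n : ℕ} (T : PTable n) (g : (Fin n → Bool) → Bool) : Prop :=
  ∀ x b, T x = some b → g x = b

/-- The program `B` decides Partial MCSP for the arity `n` and the size `s`: it accepts the partial truth tables
with a consistent circuit of size at most `s`. -/
def Decides {n : ℕ} {V : Type} (B : NBP (Fin n → Bool) (Option Bool) V) (s : ℕ) : Prop :=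
  ∀ T : PTable n, B.Accepts T ↔ ∃ g, HasSize g s ∧ Consistent T g

theorem gap {n w s s' : ℕ} (hn : 1 ≤ n) (hs1 : 1 ≤ s) (hss : s ≤ s')
    (hs : 1100 * n ^ 7 * s' * w ≤ s ^ 2) (hs' : 32 * n * s' ≤ 2 ^ n) {V : Type} [Fintype V]
    (B : NBP (Fin n → Bool) (Option Bool) V) (hB : B.ReadOnce)
    (h1 : ∀ g, HasSize g s → B.Accepts (total g))
    (h2 : ∀ g, B.Accepts (total g) → HasSize g s') :
    2 ^ w ≤ Fintype.card V := by
  rcases Nat.eq_zero_or_pos w with rfl | hw
  · rw [pow_zero]
    exact Fintype.card_pos_iff.2 ⟨B.src⟩
  · exact nbp_main hn hw hs1 hss hs hs' B hB h1 h2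

/-- Programs that decide Partial MCSP: the case `s' = s`. -/
theorem decide {n w s : ℕ} (hn : 1 ≤ n) (hs1 : 1 ≤ s) (hs : 1100 * n ^ 7 * w ≤ s)
    (hs' : 32 * n * s ≤ 2 ^ n) {V : Type} [Fintype V]
    (B : NBP (Fin n → Bool) (Option Bool) V) (hB : B.ReadOnce) (hD : Decides B s) :
    2 ^ w ≤ Fintype.card V := by
  refine gap hn hs1 le_rfl ?_ hs' B hB (fun g hg => (hD _).2 ⟨g, hg, fun x b hxb =>
      Option.some.inj hxb⟩) fun g hg => ?_
  · calc 1100 * n ^ 7 * s * w = 1100 * n ^ 7 * w * s := by ring
      _ ≤ s * s := Nat.mul_le_mul_right _ hs
      _ = s ^ 2 := (sq s).symm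
  · obtain ⟨g', hg', hc⟩ := (hD _).1 hg
    have : g' = g := funext fun x => hc x (g x) rfl
    rw [← this]
    exact hg'

/-- **Nondeterministic read-once branching programs for Partial MCSP.**

1. Lower bound, with a gap.  Let `1 ≤ s ≤ s'`, `1100 n ^ 7 s' w ≤ s ^ 2` and `32 n s' ≤ 2 ^ n`.  Every nondeterministic
   read-once branching program that accepts the total truth tables of functions of circuit size at most `s` and
   rejects the total truth tables of functions of circuit size greater than `s'` has at least `2 ^ w` nodes.  (With
   `s' = s` this applies to the programs that decide Partial MCSP for `n` and `s`, see `decide`.)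
2. Upper bound.  There is a nondeterministic read-once branching program with at most
   `2 ^ ((2 n + 3) (s + 1) + n + 2)` nodes that decides Partial MCSP for the arity `n` and the size `s`. -/
theorem result :
    (∀ n w s s' : ℕ, 1 ≤ n → 1 ≤ s → s ≤ s' → 1100 * n ^ 7 * s' * w ≤ s ^ 2 →
      32 * n * s' ≤ 2 ^ n → ∀ (V : Type) [Fintype V] (B : NBP (Fin n → Bool) (Option Bool) V),
      B.ReadOnce → (∀ g, HasSize g s → B.Accepts (total g)) →
      (∀ g, B.Accepts (total g) → HasSize g s') → 2 ^ w ≤ Fintype.card V) ∧
    (∀ n s : ℕ, 1 ≤ n → s + n ≤ 2 ^ n →
      ∃ (V : Type) (_ : Fintype V) (B : NBP (Fin n → Bool) (Option Bool) V),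
        B.ReadOnce ∧ Decides B s ∧ Fintype.card V ≤ 2 ^ ((2 * n + 3) * (s + 1) + n + 2)) := by
  refine ⟨fun n w s s' hn hs1 hss hs hs' V _ B hB h1 h2 => gap hn hs1 hss hs hs' B hB h1 h2,
    fun n s hn hs => ?_⟩
  obtain ⟨V, i, B, h1, h2, h3⟩ := nbp_upper hn hs
  exact ⟨V, i, B, h1, fun T => h2 T, h3⟩

end Pool.Agent.Results.MP_d2e5f8_lc.ReadOnceBranchingPrograms
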