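import Pool.Agent.Helper41.PM.Check

/-!
# Partial MCSP and families of read-once tree tensor networks

The input of Partial MCSP, for a fixed arity `n` and a fixed size `s`, is a partial truth table: the `N = 2 ^ n`
variables `T x`, `x ∈ {0, 1} ^ n`, with values in `{0, 1, *}`.  A tree tensor network reads every variable in at most
one leaf; every inner node combines the vectors of its two children by an arbitrary bilinear map, over an arbitrary
field.  A family of such networks, each with its own tree, its own field and its own tensors, accepts `T` if at least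
one of its members has a non-zero output.

Theorem: let a family of `L` networks of width at most `w` accept all total truth tables of circuit size at most `s`
and reject all total truth tables of circuit size greater than `s'`.  Then `L * w ^ 3 ≥ 2 ^ e` for
`e = ⌊s / (97 n ^ 3)⌋ - n - 2`, for every `s'` between `s` and `2 ^ n / (960 n)`.  So the gap may be almost as large as
possible.  On the other hand `2 ^ ((2 n + 3) (s + 1))` networks of width one decide Partial MCSP exactly.

Idea: the variables are divided into `t` parts such that the output has small rank across each part, about `t / 8`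
of which are not small.  There are functions of circuit size `1 + 4 k n ^ 3` that are `k`-wise independent; a random
selection of about `2 ^ (k / 24)` of those accepted by the network has the property that no mixture of `t` of them,
one for every part, has a circuit of size `s'`.  The replacement lemma of the starting file `TH700.PA.Rank` then
bounds the number of the selected functions by `t * w ^ 3`.
-/

set_option autoImplicit false

open Finset

namespace Pool.Agent.Results.MP_d2e5f8_lc.TensorNetworks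

open Pool.Agent.TH700.PA Pool.Agent.Helper80K3 Pool.Agent.Helper41.PM

/-- A partial truth table of arity `n`; `none` is an undefined entry. -/
abbrev PTable (n : ℕ) := (Fin n → Bool) → Option Bool

/-- The truth table of a function. -/
def total {n : ℕ} (g : (Fin n → Bool) → Bool) : PTable n := fun x => some (g x)

/-- The function `g` agrees with all defined entries of `T`. -/
def Consistent {n : ℕ} (T : PTable n) (g : (Fin n → Bool) → Bool) : Prop :=
  ∀ x b, T x = some b → g x = b

/-- A finite family (indexed by `R`) of read-once tree tensor networks whose inputs are the partial truth tables of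
arity `n`.  The member `ρ` works over its own field `K ρ`, its vectors are indexed by `W ρ` (the width is the number of
elements of `W ρ`), and it has its own output vector. -/
structure Family (n : ℕ) where
  /-- the index set of the family -/
  R : Type
  [finR : Fintype R]
  /-- the fields -/
  K : R → Type
  [field : ∀ ρ, Field (K ρ)]
  /-- the index sets of the vectors -/
  W : R → Type
  [finW : ∀ ρ, Fintype (W ρ)]
  /-- the networks -/
  net : ∀ ρ, Net (K ρ) (Fin n → Bool) (Option Bool) (W ρ)
  /-- the output vectors -/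
  out : ∀ ρ, W ρ → K ρ
  /-- every entry of the table is read at most once -/
  once : ∀ ρ x, (net ρ).reads x ≤ 1

attribute [instance] Family.finR Family.field Family.finW

/-- The family accepts `T`: some member has a non-zero output. -/
def Family.Accepts {n : ℕ} (F : Family n) (T : PTable n) : Prop :=
  ∃ ρ, (F.net ρ).value (F.out ρ) T ≠ 0

/-- The family decides Partial MCSP for the arity `n` and the size `s`. -/
def Family.Decides {n : ℕ} (F : Family n) (s : ℕ) : Prop :=
  ∀ T : PTable n, F.Accepts T ↔ ∃ g, HasSize g s ∧ Consistent T g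

theorem gap {n e s s' : ℕ} (hn : 1 ≤ n) (hss : s ≤ s') (hs : 97 * n ^ 3 * (e + n + 2) ≤ s)
    (hs' : 960 * n * s' ≤ 2 ^ n) (F : Family n)
    (h1 : ∀ g, HasSize g s → F.Accepts (total g))
    (h2 : ∀ g, F.Accepts (total g) → HasSize g s') (w : ℕ)
    (hw : ∀ ρ, Fintype.card (F.W ρ) ≤ w) : 2 ^ e ≤ Fintype.card F.R * w ^ 3 := by
  classical
  have hn3 : 0 < n ^ 3 := by positivity
  have hE : 1 ≤ n ^ 3 * (e + n + 2) := Nat.mul_pos hn3 (by omega)
  have hs97 : 97 * (n ^ 3 * (e + n + 2)) ≤ s := by
    calc _ = 97 * n ^ 3 * (e + n + 2) := by ring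
      _ ≤ s := hs
  have hs'1 : 1 ≤ s' := by omega
  set k : ℕ := (s - 1) / (4 * n ^ 3) with hk
  have hk1 : 1 + k * (4 * n ^ 3) ≤ s := by
    have := Nat.div_mul_le_self (s - 1) (4 * n ^ 3)
    rw [← hk] at this
    omega
  have hk24 : 24 * (e + n + 2) ≤ k := by
    rw [hk, Nat.le_div_iff_mul_le (by omega)]
    calc 24 * (e + n + 2) * (4 * n ^ 3) = 96 * (n ^ 3 * (e + n + 2)) := by ring
      _ ≤ s - 1 := by omega
  have hk0 : 1 ≤ k := by omega
  have hks : k ≤ s' := by
    have : k * 1 ≤ k * (4 * n ^ 3) := Nat.mul_le_mul_left _ (by omega)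
    omega
  clear_value k
  have hns : s' + n ≤ 2 * (n * s') := by
    nlinarith [Nat.mul_le_mul hn hs'1]
  set h : ℕ := (2 * n + 3) * (s' + 1) with hh
  have hh10 : h ≤ 10 * (n * s') := by
    calc h ≤ (5 * n) * (2 * s') := Nat.mul_le_mul (by omega) (by omega)
      _ = _ := by ring
  have hsh : s' ≤ h := by
    rw [hh]
    nlinarith
  clear_value h
  have hns' : 960 * (n * s') ≤ 2 ^ n := by
    calc 960 * (n * s') = 960 * n * s' := by ring
      _ ≤ _ := hs'
  have hY : (easyF n s').card ≤ 2 ^ h := by
    rw [hh]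
    exact card_easy hn (by omega)
  obtain ⟨b, hb1, hb2⟩ := exists_pow (h := h) hk0 (by omega)
  have hqk : 2 ^ b ≤ k * 2 ^ b := Nat.le_mul_of_pos_left _ hk0
  have hq1 : 1 ≤ 2 ^ b := Nat.one_le_two_pow
  have hbn : b ≤ n := by
    have : 2 ^ b < 2 ^ n := by omega
    exact ((Nat.pow_lt_pow_iff_right (by norm_num)).1 this).le
  have hX : Fintype.card (Fin n → Bool) = 2 ^ n := by
    rw [Fintype.card_fun, Fintype.card_bool, Fintype.card_fin]
  obtain ⟨Ω, i1, i2, G, hU, hG⟩ := exists_family n hn k hk0
  have hacc : ∀ ω, ∃ ρ, (F.net ρ).value (F.out ρ) (total (G ω)) ≠ 0 :=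
    fun ω => h1 _ (hasSize_mono (hG ω) hk1)
  choose c hc using hacc
  -- the width is positive
  have hw1 : 1 ≤ w := by
    obtain ⟨ω⟩ := i2
    by_contra hw0
    have h3 : Fintype.card (F.W (c ω)) = 0 := by
      have := hw (c ω)
      omega
    rw [Fintype.card_eq_zero_iff] at h3
    exact hc ω (by unfold Net.value; simp)
  have hnet : ∀ ρ, (univ.filter (fun ω => c ω = ρ)).card * 2 ^ (e + n + 2) ≤
      ((2 * 2 ^ b + 1) * w ^ 3 + 1) * Fintype.card Ω := by
    intro ρ
    refine (net_bound (θ := 2 ^ (n - b)) (h := h) (F.net ρ) (F.out ρ) (F.once ρ) G hU (easyF n s')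
      (fun g hg => mem_easyF (h2 g ⟨ρ, hg⟩)) (univ.filter (fun ω => c ω = ρ)) (fun ω hω => ?_) ?_
      Nat.one_le_two_pow ?_ hq1 hY hb1 hk24).trans ?_
    · rw [← (mem_filter.1 hω).2]
      exact hc ω
    · rw [hX, ← pow_add]
      congr 1
      omega
    · rw [hX]
      have e1 : (2 * 2 ^ b + 1) * k ≤ 3 * (k * 2 ^ b) := by nlinarith
      omega
    · have := Nat.pow_le_pow_left (hw ρ) 3
      gcongr
  have hall : Fintype.card Ω * 2 ^ (e + n + 2) ≤
      Fintype.card F.R * (((2 * 2 ^ b + 1) * w ^ 3 + 1) * Fintype.card Ω) := by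
    have h3 : Fintype.card Ω = ∑ ρ : F.R, (univ.filter (fun ω => c ω = ρ)).card := by
      rw [← card_univ]
      exact card_eq_sum_card_fiberwise fun x _ => mem_univ _
    calc Fintype.card Ω * 2 ^ (e + n + 2)
        = ∑ ρ : F.R, (univ.filter (fun ω => c ω = ρ)).card * 2 ^ (e + n + 2) := by
          rw [← sum_mul, ← h3]
      _ ≤ ∑ _ρ : F.R, ((2 * 2 ^ b + 1) * w ^ 3 + 1) * Fintype.card Ω :=
          sum_le_sum fun ρ _ => hnet ρ
      _ = _ := by rw [sum_const, card_univ, smul_eq_mul]
  have hΩ : 0 < Fintype.card Ω := Fintype.card_pos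
  have h4 : 2 ^ (e + n + 2) ≤ Fintype.card F.R * ((2 * 2 ^ b + 1) * w ^ 3 + 1) := by
    refine Nat.le_of_mul_le_mul_left ?_ hΩ
    calc Fintype.card Ω * 2 ^ (e + n + 2) ≤ _ := hall
      _ = _ := by ring
  have h5 : (2 * 2 ^ b + 1) * w ^ 3 + 1 ≤ 2 ^ (n + 2) * w ^ 3 := by
    have hw3 : 1 ≤ w ^ 3 := Nat.one_le_pow _ _ hw1
    have hb3 : 2 ^ b ≤ 2 ^ n := Nat.pow_le_pow_right (by norm_num) hbn
    calc (2 * 2 ^ b + 1) * w ^ 3 + 1 ≤ (2 * 2 ^ b + 1) * w ^ 3 + w ^ 3 := by omega
      _ = (2 * 2 ^ b + 2) * w ^ 3 := by ring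
      _ ≤ 2 ^ (n + 2) * w ^ 3 := Nat.mul_le_mul_right _ (by
          have : 2 ^ (n + 2) = 4 * 2 ^ n := by ring
          have : 1 ≤ 2 ^ n := Nat.one_le_two_pow
          omega)
  have h6 : 2 ^ (n + 2) * 2 ^ e ≤ 2 ^ (n + 2) * (Fintype.card F.R * w ^ 3) := by
    calc 2 ^ (n + 2) * 2 ^ e = 2 ^ (e + n + 2) := by
          rw [← pow_add]
          congr 1
          omega
      _ ≤ Fintype.card F.R * ((2 * 2 ^ b + 1) * w ^ 3 + 1) := h4
      _ ≤ Fintype.card F.R * (2 ^ (n + 2) * w ^ 3) := Nat.mul_le_mul_left _ h5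
      _ = _ := by ring
  exact Nat.le_of_mul_le_mul_left h6 (by positivity)

theorem upper {n s : ℕ} (hn : 1 ≤ n) (hs : s + n ≤ 2 ^ n) :
    ∃ F : Family n, F.Decides s ∧ Fintype.card F.R ≤ 2 ^ ((2 * n + 3) * (s + 1)) ∧
      ∀ ρ, Fintype.card (F.W ρ) = 1 := by
  classical
  set G : Finset ((Fin n → Bool) → Bool) := (easyF n s).filter (fun g => HasSize g s) with hG
  have key : ∀ g : {g // g ∈ G}, ∃ T : Net ℚ (Fin n → Bool) (Option Bool) Unit,
      (∀ x, T.reads x ≤ 1) ∧ ∀ z : PTable n, T.value (fun _ => 1) z ≠ 0 ↔ Consistent z g.1 := by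
    intro g
    obtain ⟨T, hr, -, hv⟩ := exists_check (Al := Option Bool)
      (fun (x : Fin n → Bool) b => decide (b = none ∨ b = some (g.1 x))) univ univ_nonempty
    refine ⟨T, fun x => (hr x (mem_univ _)).le, fun z => ?_⟩
    have hiff : (∀ x ∈ (univ : Finset (Fin n → Bool)),
        decide (z x = none ∨ z x = some (g.1 x)) = true) ↔ Consistent z g.1 := by
      refine ⟨fun h x b hxb => ?_, fun h x _ => ?_⟩
      · have := decide_eq_true_iff.1 (h x (mem_univ _))
        rw [hxb] at this
        rcases this with h | h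
        · exact absurd h (by simp)
        · exact (Option.some.inj h).symm
      · rw [decide_eq_true_iff]
        rcases hx : z x with _ | b
        · exact Or.inl rfl
        · exact Or.inr (by rw [h x b hx])
    have hval : T.value (fun _ => 1) z = T.eval z () := by
      unfold Net.value
      simp
    rw [hval, ← hiff]
    by_cases hc : ∀ x ∈ (univ : Finset (Fin n → Bool)),
        decide (z x = none ∨ z x = some (g.1 x)) = true
    · rw [(hv z).1 hc]
      exact ⟨fun _ => hc, fun _ => one_ne_zero⟩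
    · rw [(hv z).2 hc]
      exact ⟨fun h => absurd rfl h, fun h => absurd h hc⟩
  choose T hr hv using key
  refine ⟨{ R := {g // g ∈ G}, K := fun _ => ℚ, W := fun _ => Unit, net := T,
            out := fun _ _ => 1, once := hr }, fun z => ⟨?_, ?_⟩, ?_, ?_⟩
  · rintro ⟨ρ, hρ⟩
    exact ⟨ρ.1, (mem_filter.1 ρ.2).2, (hv ρ z).1 hρ⟩
  · rintro ⟨g, hg, hc⟩
    have hgG : g ∈ G := mem_filter.2 ⟨mem_easyF hg, hg⟩
    exact ⟨⟨g, hgG⟩, (hv ⟨g, hgG⟩ z).2 hc⟩
  · show Fintype.card {g // g ∈ G} ≤ _
    rw [Fintype.card_coe]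
    exact (card_le_card (filter_subset _ _)).trans (card_easy hn hs)
  · intro ρ
    exact Fintype.card_unit

/-- Families that decide Partial MCSP: the case `s' = s`. -/
theorem decide {n e s : ℕ} (hn : 1 ≤ n) (hs : 97 * n ^ 3 * (e + n + 2) ≤ s)
    (hs' : 960 * n * s ≤ 2 ^ n) (F : Family n) (hD : F.Decides s) (w : ℕ)
    (hw : ∀ ρ, Fintype.card (F.W ρ) ≤ w) : 2 ^ e ≤ Fintype.card F.R * w ^ 3 := by
  refine gap hn le_rfl hs hs' F (fun g hg => (hD _).2 ⟨g, hg, fun x b hxb =>
      Option.some.inj hxb⟩) (fun g hg => ?_) w hw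
  obtain ⟨g', hg', hc⟩ := (hD _).1 hg
  have : g' = g := funext fun x => hc x (g x) rfl
  rw [← this]
  exact hg'

/-- **Families of read-once tree tensor networks for Partial MCSP.**  `R` is the index set of the family and `w` bounds
the widths.

1. Lower bound, with a gap.  Let `n ≥ 1`, `97 n ^ 3 (e + n + 2) ≤ s ≤ s'` and `960 n s' ≤ 2 ^ n`.  If a family accepts
   all total truth tables of circuit size at most `s` and rejects all total truth tables of circuit size greater than
   `s'`, then `2 ^ e ≤ |R| * w ^ 3`.  (With `s' = s` this applies to the families that decide Partial MCSP for `n` and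
   `s`, see `decide`.)
2. Upper bound.  Some family of at most `2 ^ ((2 n + 3) (s + 1))` networks of width one decides Partial MCSP for the
   arity `n` and the size `s`. -/
theorem result :
    (∀ n e s s' : ℕ, 1 ≤ n → s ≤ s' → 97 * n ^ 3 * (e + n + 2) ≤ s → 960 * n * s' ≤ 2 ^ n →
      ∀ F : Family n, (∀ g, HasSize g s → F.Accepts (total g)) →
      (∀ g, F.Accepts (total g) → HasSize g s') →
      ∀ w, (∀ ρ, Fintype.card (F.W ρ) ≤ w) → 2 ^ e ≤ Fintype.card F.R * w ^ 3) ∧
    (∀ n s : ℕ, 1 ≤ n → s + n ≤ 2 ^ n → ∃ F : Family n, F.Decides s ∧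
      Fintype.card F.R ≤ 2 ^ ((2 * n + 3) * (s + 1)) ∧ ∀ ρ, Fintype.card (F.W ρ) = 1) :=
  ⟨fun _ _ _ _ hn hss hs hs' F h1 h2 w hw => gap hn hss hs hs' F h1 h2 w hw,
    fun _ _ hn hs => upper hn hs⟩

end Pool.Agent.Results.MP_d2e5f8_lc.TensorNetworks
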